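import Pool.Agent.KS7_39.D56.Era

/-!
# MP_8d80dd_co: images of episturmian words under `a ↦ ζ(a)^{m(a)}` are rich

Let `u` be an episturmian word over `A`, `ζ : A → B` any map and `m : A → ℕ` any function which
does not vanish on all the letters of `u`.  The image of `u` under the morphism
`a ↦ ζ(a)^{m(a)}`, which may erase letters, is a rich infinite word.  The case `m = 1` is the
statement on the letter-to-letter projections.
-/

set_option autoImplicit false

namespace Pool.Agent.Results.MP_8d80dd_co.LetterPowerImages

open Pool.Agent.KS7_39.D56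
open Pool.Agent.Results.MP_8d80dd_co.ProjectionRich

/-- **Letter-power images of episturmian words are rich.** For every episturmian word `u` over an
arbitrary alphabet, every map `ζ` between alphabets and all exponents `m a ≥ 0`, not all zero on
the letters of `u`, the image of `u` under the morphism `a ↦ ζ(a)^{m(a)}` is a unique infinite
word, and it is rich. -/
theorem result {A B : Type*} (u : ℕ → A) (hu : Episturmian u) (ζ : A → B) (m : A → ℕ)
    (hm : ∃ i, 1 ≤ m (u i)) : (∃! v, IsImage ζ m u v) ∧ ∀ v, IsImage ζ m u v → Rich v := by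
  obtain ⟨v, hv⟩ := exists_image' hu ζ m hm
  refine ⟨⟨v, hv, fun v' hv' => ?_⟩, fun v hv => rich_image' hu ζ m hm v hv⟩
  funext i
  obtain ⟨n, hn⟩ := long_image hu ζ m hm (i + 1)
  obtain ⟨k, hk⟩ := hv n
  obtain ⟨k', hk'⟩ := hv' n
  rw [hk, fac_length] at hn
  have h2 : fac v' 0 k' = fac v 0 k := by rw [← hk, ← hk']
  have h3 : i < (fac v 0 k).length := by rw [fac_length]; omega
  have h4 : i < (fac v' 0 k').length := by rw [h2]; exact h3
  have h5 : (fac v' 0 k')[i] = (fac v 0 k)[i] := by simp only [h2]
  rw [fac_getElem, fac_getElem, Nat.zero_add] at h5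
  exact h5

end Pool.Agent.Results.MP_8d80dd_co.LetterPowerImages
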